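import Pool.Agent.H6.NB.Targets

namespace Pool.Agent.H97.NB.CER

open Pool.Agent.H6.NB

variable {X Yv Ω : Type} [DecidableEq X] [DecidableEq Yv] [DecidableEq Ω] {nn qq : Ω → ℕ}

/-- The table part of a condition. -/
def pa : Crd X Yv Ω nn qq × Bool → Finset (X × Yv)
  | (.bas x y, _) => {(x, y)}
  | _ => ∅

/-- The key part of a condition. -/
def pb : Crd X Yv Ω nn qq × Bool → Finset Ω
  | (.key s, _) => {s}
  | _ => ∅

/-- All table parts. -/
def cA : List (Crd X Yv Ω nn qq × Bool) → Finset (X × Yv)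
  | [] => ∅
  | c :: τ => pa c ∪ cA τ

/-- All key parts. -/
def cB : List (Crd X Yv Ω nn qq × Bool) → Finset Ω
  | [] => ∅
  | c :: τ => pb c ∪ cB τ

lemma card1 (c : Crd X Yv Ω nn qq × Bool) : (pa c).card + (pb c).card ≤ 1 := by
  obtain ⟨c, b⟩ := c
  cases c <;> simp [pa, pb]

lemma cardAB (τ : List (Crd X Yv Ω nn qq × Bool)) : (cA τ).card + (cB τ).card ≤ τ.length := by
  induction τ with
  | nil => simp [cA, cB]
  | cons c τ ih =>
    have h1 := card1 c
    have h2 := Finset.card_union_le (pa c) (cA τ)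
    have h3 := Finset.card_union_le (pb c) (cB τ)
    simp only [cA, cB, List.length_cons]
    omega

lemma memA {τ : List (Crd X Yv Ω nn qq × Bool)} {c : Crd X Yv Ω nn qq × Bool} (hc : c ∈ τ)
    {p : X × Yv} (hp : p ∈ pa c) : p ∈ cA τ := by
  induction τ with
  | nil => simp at hc
  | cons c' τ ih =>
    simp only [cA, Finset.mem_union]
    rcases List.mem_cons.mp hc with rfl | h
    · exact Or.inl hp
    · exact Or.inr (ih h)

lemma memB {τ : List (Crd X Yv Ω nn qq × Bool)} {c : Crd X Yv Ω nn qq × Bool} (hc : c ∈ τ)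
    {s : Ω} (hp : s ∈ pb c) : s ∈ cB τ := by
  induction τ with
  | nil => simp at hc
  | cons c' τ ih =>
    simp only [cB, Finset.mem_union]
    rcases List.mem_cons.mp hc with rfl | h
    · exact Or.inl hp
    · exact Or.inr (ih h)

lemma lowB {τ : List (Crd X Yv Ω nn qq × Bool)} {lev : Ω → ℕ} {j : ℕ}
    (h : ∀ c ∈ τ, Low lev j c.1) {s : Ω} (hs : s ∈ cB τ) : lev s < j := by
  induction τ with
  | nil => simp [cB] at hs
  | cons c' τ ih =>
    simp only [cB, Finset.mem_union] at hs
    rcases hs with h1 | h1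
    · have hl := h c' (by simp)
      obtain ⟨c, b⟩ := c'
      cases c with
      | key s' =>
        simp only [pb, Finset.mem_singleton] at h1
        subst h1
        exact hl
      | cst b => simp [pb] at h1
      | bas x y => simp [pb] at h1
      | blk s i v => simp [pb] at h1
    · exact ih (fun c hc => h c (List.mem_cons_of_mem _ hc)) h1

theorem t_cer : T_CER := by
  intro X Yv Ω _ _ _ nn qq D lev t h S hsys P
  refine ⟨fun s Y e hG => ?_, hsys.lt⟩
  obtain ⟨τ, hτ, hsat⟩ := List.any_eq_true.mp hG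
  refine ⟨cA τ, cB τ, (cardAB τ).trans (hsys.width s τ hτ), fun s' hs' => lowB (hsys.low s τ hτ) hs',
    fun Y' e' hA hB => List.any_eq_true.mpr ⟨τ, hτ, ?_⟩⟩
  rw [List.all_eq_true] at hsat ⊢
  intro c hc
  have h0 := hsat c hc
  have : vl Y' e' P c.1 = vl Y e P c.1 := by
    obtain ⟨c, b⟩ := c
    cases c with
    | cst b => rfl
    | bas x y =>
      have := hA (x, y) (memA hc (by simp [pa]))
      simp only [vl, this]
    | key s' =>
      exact hB s' (memB hc (by simp [pb]))
    | blk s i v => rfl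
  rw [this]
  exact h0

end Pool.Agent.H97.NB.CER
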