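import Pool.Agent.H6.NB.Targets

namespace Pool.Agent.H97.NB.CLA

open Pool.Agent.H6.NB

theorem t_cla (h1 : T_CLB) : T_CLA := by
  intro X Yv Ω V _ nn qq D lev t j S d Y e P hS htS hD hw hlow he hP
  obtain ⟨hconst, hmono, hft, hlst, hxor⟩ := h1 V S hS
  -- a single condition
  have hc : ∀ τ ∈ D, ∀ c ∈ τ, Cl V S d fun y => vl Y (e y) (P y) c.1 := by
    intro τ hτ c hc
    have hl := hlow τ hτ c hc
    obtain ⟨c1, c2⟩ := c
    cases c1 with
    | cst b => exact hconst d b
    | bas x y' => exact hconst d _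
    | key s => exact he s hl
    | blk s i v => exact hP s i v
  -- violated terms
  have ht : ∀ τ ∈ D, Cl V S (d + 1) fun y => τ.any fun c => vl Y (e y) (P y) c.1 == !c.2 := by
    intro τ hτ
    refine hlst d (τ.map fun c => ((fun y => vl Y (e y) (P y) c.1), !c.2)) _ ?_ ?_ fun y => ?_
    · rw [List.length_map]; exact (hw τ hτ).trans htS
    · intro c hcm
      obtain ⟨c', hc', rfl⟩ := List.mem_map.mp hcm
      exact hc τ hτ c' hc'
    · simp only [List.any_eq_true, beq_iff_eq, List.mem_map]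
      constructor
      · rintro ⟨c, hcm, h⟩
        exact ⟨_, ⟨c, hcm, rfl⟩, h⟩
      · rintro ⟨_, ⟨c, hcm, rfl⟩, h⟩
        exact ⟨c, hcm, h⟩
  refine hlst (d + 1) (D.map fun τ => ((fun y => τ.any fun c => vl Y (e y) (P y) c.1 == !c.2), false))
    _ ?_ ?_ fun y => ?_
  · rw [List.length_map]; exact hD
  · intro c hcm
    obtain ⟨τ, hτ, rfl⟩ := List.mem_map.mp hcm
    exact ht τ hτ
  · have key : ∀ τ : List (Crd X Yv Ω nn qq × Bool),
        (τ.any fun c => vl Y (e y) (P y) c.1 == !c.2) = false ↔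
          (τ.all fun c => vl Y (e y) (P y) c.1 == c.2) = true := by
      intro τ
      rw [List.any_eq_false, List.all_eq_true]
      refine forall_congr' fun c => forall_congr' fun _ => ?_
      cases vl Y (e y) (P y) c.1 <;> cases c.2 <;> simp
    unfold dnf
    simp only [List.any_eq_true (l := D), List.mem_map]
    constructor
    · rintro ⟨τ, hτ, h⟩
      exact ⟨_, ⟨τ, hτ, rfl⟩, (key τ).mpr h⟩
    · rintro ⟨_, ⟨τ, hτ, rfl⟩, h⟩
      exact ⟨τ, hτ, (key τ).mp h⟩

end Pool.Agent.H97.NB.CLA
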