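import Pool.Agent.H6.NB.Targets

namespace Pool.Agent.H97.NB.CLB

open Pool.Agent.H6.NB

variable {V : Type} {S : ℕ}

lemma succ (hS : 2 ≤ S) (d : ℕ) (f : (V → Bool) → Bool) (hf : Cl V S d f) : Cl V S (d + 1) f := by
  refine ⟨1, fun _ => f, fun _ => true, by omega, fun _ => hf, fun y => ?_⟩
  constructor
  · intro h; exact ⟨0, h⟩
  · rintro ⟨_, h⟩; exact h

lemma mono (hS : 2 ≤ S) (d d' : ℕ) (f : (V → Bool) → Bool) (h : d ≤ d') (hf : Cl V S d f) :
    Cl V S d' f := by
  induction h with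
  | refl => exact hf
  | step _ ih => exact succ hS _ _ ih

lemma const (hS : 2 ≤ S) (d : ℕ) (b : Bool) : Cl V S d fun _ => b :=
  mono hS 0 d _ (Nat.zero_le _) (Or.inl ⟨b, fun _ => rfl⟩)

lemma ft (d : ℕ) (ι : Type) [Fintype ι] (g : ι → (V → Bool) → Bool) (b : ι → Bool)
    (f : (V → Bool) → Bool) (hc : Fintype.card ι ≤ S) (hg : ∀ i, Cl V S d (g i))
    (hf : ∀ y, (f y = true ↔ ∃ i, g i y = b i)) : Cl V S (d + 1) f := by
  refine ⟨Fintype.card ι, fun i => g ((Fintype.equivFin ι).symm i),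
    fun i => b ((Fintype.equivFin ι).symm i), hc, fun i => hg _, fun y => ?_⟩
  rw [hf y]
  constructor
  · rintro ⟨i, hi⟩
    refine ⟨Fintype.equivFin ι i, ?_⟩
    simpa using hi
  · rintro ⟨i, hi⟩
    exact ⟨_, hi⟩

lemma lst (d : ℕ) (g : List (((V → Bool) → Bool) × Bool)) (f : (V → Bool) → Bool)
    (hc : g.length ≤ S) (hg : ∀ c ∈ g, Cl V S d c.1)
    (hf : ∀ y, (f y = true ↔ ∃ c ∈ g, c.1 y = c.2)) : Cl V S (d + 1) f := by
  refine ft d (Fin g.length) (fun i => (g.get i).1) (fun i => (g.get i).2) f (by simpa using hc)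
    (fun i => hg _ (List.get_mem _ _)) fun y => ?_
  rw [hf y]
  constructor
  · rintro ⟨c, hc, h⟩
    obtain ⟨i, rfl⟩ := List.mem_iff_get.mp hc
    exact ⟨i, h⟩
  · rintro ⟨i, hi⟩
    exact ⟨_, List.get_mem _ _, hi⟩

lemma xr (hS : 2 ≤ S) (d : ℕ) (f g : (V → Bool) → Bool) (hf : Cl V S d f) (hg : Cl V S d g) :
    Cl V S (d + 2) fun y => xor (f y) (g y) := by
  have hu : Cl V S (d + 1) fun y => !(f y) || g y := by
    refine lst d [(f, false), (g, true)] _ (by simpa using hS) ?_ fun y => ?_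
    · intro c hc
      simp only [List.mem_cons, List.not_mem_nil, or_false] at hc
      rcases hc with rfl | rfl
      · exact hf
      · exact hg
    · simp
  have hv : Cl V S (d + 1) fun y => f y || !(g y) := by
    refine lst d [(f, true), (g, false)] _ (by simpa using hS) ?_ fun y => ?_
    · intro c hc
      simp only [List.mem_cons, List.not_mem_nil, or_false] at hc
      rcases hc with rfl | rfl
      · exact hf
      · exact hg
    · simp
  refine lst (d + 1) [(fun y => !(f y) || g y, false), (fun y => f y || !(g y), false)] _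
    (by simpa using hS) ?_ fun y => ?_
  · intro c hc
    simp only [List.mem_cons, List.not_mem_nil, or_false] at hc
    rcases hc with rfl | rfl
    · exact hu
    · exact hv
  · cases hfy : f y <;> cases hgy : g y <;> simp [hfy, hgy]

theorem t_clb : T_CLB := by
  intro V S hS
  exact ⟨const hS, mono hS, fun d ι _ g b f => ft d ι g b f, lst, xr hS⟩

end Pool.Agent.H97.NB.CLB
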